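import Mathlib
import Pool.Agent.TH623.GenericBasis
import Pool.Agent.TH623.Branch
import Pool.Agent.TH623.Split
import Pool.Agent.TH623.BaseChange

/-!
# Approximation degree of completely split abstract smoothings (MP_a8f336_ag)

We prove both questions in the affirmative, with the constant bound `0`: every smoothable finite
algebra `A` over an algebraically closed field has a completely split abstract smoothing, and
every finite flat `k[[t]]`-algebra has a `k[[t]]`-basis all of whose structure constants are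
units of `k[[t]]`, so that its approximation degree is `0`.
-/

namespace Pool.Agent.Results.MP_a8f336_ag.ApproximationDegreeZero

open PowerSeries LaurentSeries
open scoped TensorProduct

universe u

/-- `𝒜` is an abstract smoothing of the finite `k`-algebra `A`: a finite flat `k[[t]]`-algebra
whose generic fibre `𝒜 ⊗ k((t))` is geometrically reduced and whose special fibre `𝒜/t𝒜` is
isomorphic to `A` as a `k`-algebra. -/
structure IsAbstractSmoothing (k : Type u) [Field k] (A : Type u) [CommRing A] [Algebra k A]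
    (𝒜 : Type u) [CommRing 𝒜] [Algebra k⟦X⟧ 𝒜] : Prop where
  finite : Module.Finite k⟦X⟧ 𝒜
  flat : Module.Flat k⟦X⟧ 𝒜
  generic : Algebra.IsGeometricallyReduced k⸨X⸩ (k⸨X⸩ ⊗[k⟦X⟧] 𝒜)
  special : ∃ φ : (𝒜 ⧸ Ideal.span {algebraMap k⟦X⟧ 𝒜 X}) ≃+* A,
    ∀ c : k, φ (Ideal.Quotient.mk _ (algebraMap k⟦X⟧ 𝒜 (C c))) = algebraMap k A c

/-- The generic fibre is the product of `d` copies of `k((t))`. -/
def IsCompletelySplit (k : Type u) [Field k] (d : ℕ) (𝒜 : Type u) [CommRing 𝒜]
    [Algebra k⟦X⟧ 𝒜] : Prop :=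
  Nonempty ((k⸨X⸩ ⊗[k⟦X⟧] 𝒜) ≃ₐ[k⸨X⸩] (Fin d → k⸨X⸩))

/-- `Spec A` is smoothable: `A` has an abstract smoothing. -/
def Smoothable (k : Type u) [Field k] (A : Type u) [CommRing A] [Algebra k A] : Prop :=
  ∃ (𝒜 : Type u) (_ : CommRing 𝒜) (_ : Algebra k⟦X⟧ 𝒜), IsAbstractSmoothing k A 𝒜

/-- The structure constant `c_{ij}^l` of the basis `e`, given by `e_i e_j = ∑_l c_{ij}^l e_l`. -/
noncomputable def structureConstant {k : Type u} [Field k] {𝒜 : Type u} [CommRing 𝒜]
    [Algebra k⟦X⟧ 𝒜] {n : ℕ} (e : Module.Basis (Fin n) k⟦X⟧ 𝒜) (i j l : Fin n) : k⟦X⟧ :=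
  e.repr (e i * e j) l

/-- `ad(𝒜; e) = max {ν(c_{ij}^l) : c_{ij}^l ≠ 0}`. -/
noncomputable def ad {k : Type u} [Field k] {𝒜 : Type u} [CommRing 𝒜]
    [Algebra k⟦X⟧ 𝒜] {n : ℕ} (e : Module.Basis (Fin n) k⟦X⟧ 𝒜) : ℕ :=
  sSup {m : ℕ | ∃ i j l, structureConstant e i j l ≠ 0 ∧ (structureConstant e i j l).order = m}

/-- The approximation degree of `𝒜`: the minimum of `ad(𝒜; e)` over all `k[[t]]`-bases `e`. -/
noncomputable def approximationDegree (k : Type u) [Field k] (𝒜 : Type u) [CommRing 𝒜]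
    [Algebra k⟦X⟧ 𝒜] : ℕ :=
  sInf {m : ℕ | ∃ e : Module.Basis (Fin (Module.finrank k⟦X⟧ 𝒜)) k⟦X⟧ 𝒜, ad e = m}

/-- `A` has a completely split abstract smoothing of approximation degree at most `N`. -/
def HasSplitSmoothing (k : Type u) [Field k] (A : Type u) [CommRing A] [Algebra k A]
    (N : ℕ) : Prop :=
  ∃ (𝒜 : Type u) (_ : CommRing 𝒜) (_ : Algebra k⟦X⟧ 𝒜), IsAbstractSmoothing k A 𝒜 ∧
    IsCompletelySplit k (Module.finrank k A) 𝒜 ∧ approximationDegree k 𝒜 ≤ N

section

variable {k : Type u} [Field k]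

lemma ker_constantCoeff : RingHom.ker (constantCoeff (R := k)) = Ideal.span {(X : k⟦X⟧)} := by
  ext f
  rw [RingHom.mem_ker, Ideal.mem_span_singleton, X_dvd_iff]

lemma map_ker (𝒜 : Type u) [CommRing 𝒜] [Algebra k⟦X⟧ 𝒜] :
    (RingHom.ker (constantCoeff (R := k))).map (algebraMap k⟦X⟧ 𝒜) =
      Ideal.span {algebraMap k⟦X⟧ 𝒜 X} := by
  rw [ker_constantCoeff, Ideal.map_span, Set.image_singleton]

/-- Every finite flat `k[[t]]`-algebra has a basis with all structure constants units. -/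
theorem exists_unit_basis [Infinite k] (𝒜 : Type u) [CommRing 𝒜] [Algebra k⟦X⟧ 𝒜]
    [Module.Finite k⟦X⟧ 𝒜] [Module.Flat k⟦X⟧ 𝒜] :
    ∃ e : Module.Basis (Fin (Module.finrank k⟦X⟧ 𝒜)) k⟦X⟧ 𝒜,
      ∀ i j l, IsUnit (structureConstant e i j l) := by
  have : Module.Free k⟦X⟧ 𝒜 := Module.free_of_flat_of_isLocalRing
  have : Infinite (IsLocalRing.ResidueField k⟦X⟧) :=
    Infinite.of_injective ((IsLocalRing.residue k⟦X⟧).comp C) (RingHom.injective _)
  exact Pool.Agent.TH623.GenericBasis.exists_unit_basis (Module.finBasis k⟦X⟧ 𝒜)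

theorem approximationDegree_eq_zero [Infinite k] (𝒜 : Type u) [CommRing 𝒜] [Algebra k⟦X⟧ 𝒜]
    [Module.Finite k⟦X⟧ 𝒜] [Module.Flat k⟦X⟧ 𝒜] : approximationDegree k 𝒜 = 0 := by
  obtain ⟨e, he⟩ := exists_unit_basis (k := k) 𝒜
  have h1 : ad e = 0 := by
    have h2 : {m : ℕ | ∃ i j l, structureConstant e i j l ≠ 0 ∧
        (structureConstant e i j l).order = m} ⊆ {0} := by
      rintro m ⟨i, j, l, -, hm⟩
      have h3 : (structureConstant e i j l).order = 0 := by
        by_contra h4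
        have h5 := coeff_of_lt_order (φ := structureConstant e i j l) 0 (by
          exact_mod_cast pos_iff_ne_zero.mpr h4)
        rw [coeff_zero_eq_constantCoeff_apply] at h5
        have h6 := (PowerSeries.isUnit_iff_constantCoeff.mp (he i j l))
        rw [h5] at h6
        exact not_isUnit_zero h6
      rw [h3] at hm
      simpa using hm.symm
    rcases Set.subset_singleton_iff_eq.mp h2 with h | h
    · rw [ad, h]; simp
    · rw [ad, h]; simp
  rw [approximationDegree]
  exact Nat.eq_zero_of_le_zero (Nat.sInf_le ⟨e, h1⟩)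

/-- The rank of an abstract smoothing of `A` is the degree of `A`. -/
theorem finrank_eq (A : Type u) [CommRing A] [Algebra k A] (𝒜 : Type u) [CommRing 𝒜]
    [Algebra k⟦X⟧ 𝒜] [Module.Finite k⟦X⟧ 𝒜] [Module.Flat k⟦X⟧ 𝒜]
    (h : ∃ φ : (𝒜 ⧸ Ideal.span {algebraMap k⟦X⟧ 𝒜 X}) ≃+* A,
      ∀ c : k, φ (Ideal.Quotient.mk _ (algebraMap k⟦X⟧ 𝒜 (C c))) = algebraMap k A c) :
    Module.finrank k⟦X⟧ 𝒜 = Module.finrank k A := by
  have : Module.Free k⟦X⟧ 𝒜 := Module.free_of_flat_of_isLocalRing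
  obtain ⟨φ, hφ⟩ := h
  let b := Module.finBasis k⟦X⟧ 𝒜
  let q : 𝒜 →+* A := φ.toRingHom.comp (Ideal.Quotient.mk _)
  have hqC : ∀ c : k, q (algebraMap k⟦X⟧ 𝒜 (C c)) = algebraMap k A c := hφ
  have hker : ∀ x, q x = 0 ↔ x ∈ Ideal.span {algebraMap k⟦X⟧ 𝒜 X} := by
    intro x
    show φ (Ideal.Quotient.mk _ x) = 0 ↔ _
    rw [map_eq_zero_iff φ φ.injective, Ideal.Quotient.eq_zero_iff_mem]
  have hqs : ∀ (r : k⟦X⟧) (x : 𝒜), q (r • x) = (constantCoeff r) • q x := by
    intro r x
    have h1 : q (algebraMap k⟦X⟧ 𝒜 r) = algebraMap k A (constantCoeff r) := by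
      rw [← hqC, ← sub_eq_zero, ← map_sub, hker, ← map_sub, Ideal.mem_span_singleton]
      refine map_dvd _ (X_dvd_iff.mpr ?_)
      rw [map_sub, constantCoeff_C, sub_self]
    rw [Algebra.smul_def, map_mul, h1, Algebra.smul_def]
  let F : (Fin (Module.finrank k⟦X⟧ 𝒜) → k) →ₗ[k] A :=
    Fintype.linearCombination k (fun i => q (b i))
  have hF : ∀ a, F a = ∑ i, a i • q (b i) := fun a => Fintype.linearCombination_apply k _ a
  have hFq : ∀ a : Fin (Module.finrank k⟦X⟧ 𝒜) → k, F a = q (∑ i, C (a i) • b i) := by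
    intro a
    rw [hF, map_sum]
    refine Finset.sum_congr rfl fun i _ => ?_
    rw [hqs, constantCoeff_C]
  have hbij : Function.Bijective F := by
    constructor
    · rw [injective_iff_map_eq_zero]
      intro a ha
      rw [hFq, hker, Ideal.mem_span_singleton] at ha
      obtain ⟨y, hy⟩ := ha
      funext i
      have h1 := congrArg (fun z => b.repr z i) hy
      simp only [b.repr_sum_self] at h1
      rw [← Algebra.smul_def, map_smul, Finsupp.smul_apply, smul_eq_mul] at h1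
      have h2 := congrArg constantCoeff h1
      rw [constantCoeff_C, map_mul, constantCoeff_X, zero_mul] at h2
      exact h2
    · intro y
      obtain ⟨x, hx⟩ := Ideal.Quotient.mk_surjective (φ.symm y)
      have hqx : q x = y := by
        show φ (Ideal.Quotient.mk _ x) = y
        rw [hx, RingEquiv.apply_symm_apply]
      refine ⟨fun i => constantCoeff (b.repr x i), ?_⟩
      rw [hF, ← hqx]
      conv_rhs => rw [← b.sum_repr x, map_sum]
      refine Finset.sum_congr rfl fun i _ => ?_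
      rw [hqs]
  have h1 := (LinearEquiv.ofBijective F hbij).finrank_eq
  rw [← h1, Module.finrank_fin_fun]

/-- Every smoothable algebra has a completely split abstract smoothing. -/
theorem exists_split [IsAlgClosed k] (A : Type u) [CommRing A] [Algebra k A]
    (h : Smoothable k A) :
    ∃ (𝒜 : Type u) (_ : CommRing 𝒜) (_ : Algebra k⟦X⟧ 𝒜), IsAbstractSmoothing k A 𝒜 ∧
      IsCompletelySplit k (Module.finrank k A) 𝒜 := by
  obtain ⟨B, _, _, hfin, hflat, hgen, φ, hφ⟩ := h
  obtain ⟨L, _, _, _, _, hL⟩ :=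
    Pool.Agent.TH623.Split.exists_splitting_field k⸨X⸩ (k⸨X⸩ ⊗[k⟦X⟧] B)
  obtain ⟨ψ, θ, hψC, hψX, hθ⟩ := Pool.Agent.TH623.Branch.exists_branch k L
  have hε : ∀ r, constantCoeff (ψ r) = constantCoeff r := by
    intro r
    have h1 : X ∣ r - C (constantCoeff r) := X_dvd_iff.mpr (by
      rw [map_sub, constantCoeff_C, sub_self])
    obtain ⟨s, hs⟩ := h1
    have h2 : r = C (constantCoeff r) + X * s := by rw [← hs]; ring
    conv_lhs => rw [h2]
    rw [map_add, map_mul, map_add, map_mul, hψX, zero_mul, add_zero, hψC, constantCoeff_C]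
  obtain ⟨B', _, _, hfin', hflat', hsplit, φ', hφ'⟩ :=
    Pool.Agent.TH623.BaseChange.exists_base_change (B := B) ψ θ hθ
      (constantCoeff (R := k)) (constantCoeff (R := k)) C C hε hψC (fun a => constantCoeff_C a)
  -- the special fibre
  have hspecial : ∃ φ : (B' ⧸ Ideal.span {algebraMap k⟦X⟧ B' X}) ≃+* A,
      ∀ c : k, φ (Ideal.Quotient.mk _ (algebraMap k⟦X⟧ B' (C c))) = algebraMap k A c := by
    refine ⟨(Ideal.quotEquivOfEq (map_ker B').symm).trans
      (φ'.trans ((Ideal.quotEquivOfEq (map_ker B)).trans φ)), fun c => ?_⟩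
    rw [RingEquiv.trans_apply, RingEquiv.trans_apply, RingEquiv.trans_apply,
      Ideal.quotEquivOfEq_mk, hφ', Ideal.quotEquivOfEq_mk, hφ]
  have hrank := finrank_eq A B' hspecial
  have : Module.Free k⟦X⟧ B' := Module.free_of_flat_of_isLocalRing
  refine ⟨B', inferInstance, inferInstance, ⟨hfin', hflat', ?_, hspecial⟩, ?_⟩
  · rw [Algebra.isGeometricallyReduced_field_iff]
    have hK : Algebra.IsFiniteSplit (AlgebraicClosure k⸨X⸩)
        (AlgebraicClosure k⸨X⸩ ⊗[k⸨X⸩] (k⸨X⸩ ⊗[k⟦X⟧] B')) := inferInstance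
    obtain ⟨n, ⟨e⟩⟩ := hK.nonempty_algEquiv_fun
    exact isReduced_of_injective e e.injective
  · obtain ⟨n, ⟨e⟩⟩ := Algebra.IsFiniteSplit.nonempty_algEquiv_fun
      k⸨X⸩ (k⸨X⸩ ⊗[k⟦X⟧] B')
    have h1 := e.toLinearEquiv.finrank_eq
    rw [Module.finrank_fin_fun, Module.finrank_baseChange, hrank] at h1
    subst h1
    exact ⟨e⟩

/-- Q1 and Q2 of MP_a8f336_ag, over every algebraically closed field `k`.
(1) Q1: every smoothable finite `k`-algebra `A` has a completely split abstract smoothing of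
approximation degree at most `d = dim_k A`.
(2) Q2: the same with `P(d)` for one polynomial `P`.
(3) In fact approximation degree `0` is always attained.
(4) Every finite flat `k[[t]]`-algebra has a `k[[t]]`-basis all of whose structure constants are
units, and so has approximation degree `0`. -/
theorem result (k : Type u) [Field k] [IsAlgClosed k] :
    (∀ (A : Type u) [CommRing A] [Algebra k A] [Module.Finite k A],
      Smoothable k A → HasSplitSmoothing k A (Module.finrank k A)) ∧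
    (∃ P : Polynomial ℕ, ∀ (A : Type u) [CommRing A] [Algebra k A] [Module.Finite k A],
      Smoothable k A → HasSplitSmoothing k A (P.eval (Module.finrank k A))) ∧
    (∀ (A : Type u) [CommRing A] [Algebra k A] [Module.Finite k A],
      Smoothable k A → HasSplitSmoothing k A 0) ∧
    (∀ (𝒜 : Type u) [CommRing 𝒜] [Algebra k⟦X⟧ 𝒜] [Module.Finite k⟦X⟧ 𝒜] [Module.Flat k⟦X⟧ 𝒜],
      (∃ e : Module.Basis (Fin (Module.finrank k⟦X⟧ 𝒜)) k⟦X⟧ 𝒜,
        ∀ i j l, IsUnit (structureConstant e i j l)) ∧ approximationDegree k 𝒜 = 0) := by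
  have : Infinite k := IsAlgClosed.instInfinite
  have key : ∀ (N : ℕ) (A : Type u) [CommRing A] [Algebra k A] [Module.Finite k A],
      Smoothable k A → HasSplitSmoothing k A N := by
    intro N A _ _ _ h
    obtain ⟨𝒜, _, _, h1, h2⟩ := exists_split A h
    have := h1.finite
    have := h1.flat
    exact ⟨𝒜, inferInstance, inferInstance, h1, h2,
      (approximationDegree_eq_zero (k := k) 𝒜).le.trans (Nat.zero_le N)⟩
  refine ⟨fun A _ _ _ h => key _ A h, ⟨0, fun A _ _ _ h => key _ A h⟩,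
    fun A _ _ _ h => key 0 A h, ?_⟩
  intro 𝒜 _ _ _ _
  exact ⟨exists_unit_basis (k := k) 𝒜, approximationDegree_eq_zero (k := k) 𝒜⟩

end

end Pool.Agent.Results.MP_a8f336_ag.ApproximationDegreeZero
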